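import Pool.Agent.Q295.BZ.Stm

set_option autoImplicit false

namespace Pool.Agent.Q79.BZ

open MeasureTheory ProbabilityTheory Set Filter
open scoped NNReal ENNReal Topology Real
open Pool.Agent.Helper807.BS (Prog IsStop ClassD tt clamp tt_zero tt_lt_succ tt_mono tt_nonneg tt_lt)
open Pool.Agent.Q295.BZ

universe u

theorem meas_tsum_fin {X : Type*} [MeasurableSpace X] (f : ℕ → X → ℝ)
    (hf : ∀ n, Measurable (f n)) (hfin : ∀ x, ∃ N, ∀ n, N ≤ n → f n x = 0) :
    Measurable (fun x => ∑' n, f n x) := by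
  refine measurable_of_tendsto_metrizable (f := fun N x => ∑ n ∈ Finset.range N, f n x)
    (fun N => Finset.measurable_sum _ fun n _ => hf n) ?_
  rw [tendsto_pi_nhds]
  intro x
  obtain ⟨N, hN⟩ := hfin x
  have h1 : ∀ M, N ≤ M → ∑ n ∈ Finset.range M, f n x = ∑' n, f n x := by
    intro M hM
    symm
    apply tsum_eq_sum
    intro n hn
    apply hN
    rw [Finset.mem_range, not_lt] at hn
    omega
  refine Tendsto.congr' ?_ tendsto_const_nhds
  filter_upwards [eventually_ge_atTop N] with M hM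
  exact (h1 M hM).symm

theorem clamp_mem {a c t : ℝ} (hac : a ≤ c) : a ≤ clamp a c t ∧ clamp a c t ≤ c := by
  unfold clamp
  exact ⟨le_max_left _ _, max_le hac (min_le_right _ _)⟩

theorem clamp_self (a t : ℝ) : clamp a a t = a := by
  unfold clamp
  exact max_eq_left (min_le_right _ _)

theorem clamp_of_le {a c t : ℝ} (h : t ≤ a) : clamp a c t = a := by
  unfold clamp
  exact max_eq_left ((min_le_left _ _).trans h)

variable {Ω : Type u} [mΩ : MeasurableSpace Ω]

theorem meas_tau {F : ℝ → MeasurableSpace Ω} (hF : ∀ s t : ℝ, s ≤ t → F s ≤ F t) {T : ℝ}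
    (hT : 0 < T) {σ : ℕ → Ω → ℝ} (hσ : Sch T F σ) (n : ℕ) (t : ℝ) :
    Measurable[F t, borel ℝ] (fun ω => min t (σ n ω)) := by
  refine @measurable_of_Ioi ℝ Ω _ _ _ (F t) _ _ _ _ ?_
  intro x
  by_cases hx : t ≤ x
  · have : (fun ω => min t (σ n ω)) ⁻¹' Ioi x = ∅ := by
      ext ω
      simp only [mem_preimage, mem_Ioi, lt_min_iff, mem_empty_iff_false, iff_false, not_and]
      intro h
      exact absurd h (not_lt.2 hx)
    rw [this]
    exact @MeasurableSet.empty _ (F t)
  · rw [not_le] at hx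
    by_cases h0 : x < 0
    · have : (fun ω => min t (σ n ω)) ⁻¹' Ioi x = univ := by
        ext ω
        simp only [mem_preimage, mem_Ioi, lt_min_iff, mem_univ, iff_true]
        exact ⟨hx, lt_of_lt_of_le h0 ((tt_nonneg T hT n).trans (hσ.lo n ω))⟩
      rw [this]
      exact @MeasurableSet.univ _ (F t)
    · have : (fun ω => min t (σ n ω)) ⁻¹' Ioi x = {ω | x < σ n ω} := by
        ext ω
        simp only [mem_preimage, mem_Ioi, lt_min_iff, mem_ofPred_eq]
        exact ⟨fun h => h.2, fun h => ⟨hx, h⟩⟩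
      rw [this]
      exact hF x t hx.le _ (hσ.st n x (not_lt.1 h0))

theorem meas_W {P : Measure Ω} {F : ℝ → MeasurableSpace Ω} {W : ℝ → Ω → ℝ} (hW : CB P F W)
    (t : ℝ) (ht : 0 ≤ t) :
    Measurable[(inferInstance : MeasurableSpace ℝ).prod (F t), borel ℝ]
      (fun q : ℝ × Ω => W (max 0 (min q.1 t)) q.2) := by
  have h1 : ∀ ω, Continuous fun u : ℝ => W (max 0 (min u t)) ω := by
    intro ω
    exact (hW.cont ω).comp (by fun_prop)
  have h2 : ∀ u : ℝ, Measurable[F t, borel ℝ] (fun ω => W (max 0 (min u t)) ω) := by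
    intro u
    exact (hW.adapted _ (le_max_left _ _)).mono
      (hW.mono _ t (max_le ht (min_le_right _ _))) le_rfl
  have h3 := @measurable_uncurry_of_continuous_of_measurable Ω ℝ ℝ _ _ _ _ _ _ _ _ _ (F t)
    (fun u ω => W (max 0 (min u t)) ω) h1 h2
  exact h3

end Pool.Agent.Q79.BZ
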