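import Pool.Agent.Q79.BZ.Bas79

set_option autoImplicit false

namespace Pool.Agent.Q79.BZ

open MeasureTheory ProbabilityTheory Set Filter
open scoped NNReal ENNReal Topology Real
open Pool.Agent.Helper807.BS (Prog IsStop ClassD tt clamp tt_zero tt_lt_succ tt_mono tt_nonneg tt_lt)
open Pool.Agent.Q295.BZ

universe u

theorem ctm : S_CTM.{u} := by
  intro Ω mΩ F W hW T hT σ a hσ
  have hfin : ∀ ω : Ω, ∃ N, ∀ n, N ≤ n → ∀ s : ℝ, clamp (tt T n) (σ n ω) s = tt T n := by
    intro ω
    obtain ⟨N, hN⟩ := hσ.fin ω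
    refine ⟨N, fun n hn s => ?_⟩
    rw [hN n hn]
    exact clamp_self _ _
  refine ⟨fun ω => ?_, fun ω => ?_, fun ω => ?_, fun ω => ?_⟩
  · obtain ⟨N, hN⟩ := hfin ω
    have h1 : (fun t => MM T W σ a t ω) = fun t => ∑ n ∈ Finset.range N,
        a n ω * (W (clamp (tt T n) (σ n ω) t) ω - W (tt T n) ω) := by
      funext t
      unfold MM
      apply tsum_eq_sum
      intro n hn
      rw [Finset.mem_range, not_lt] at hn
      rw [hN n hn, sub_self, mul_zero]
    rw [h1]
    refine continuous_finsetSum _ fun n _ => continuous_const.mul (Continuous.sub ?_ continuous_const)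
    refine (hW ω).comp ?_
    unfold clamp
    fun_prop
  · obtain ⟨N, hN⟩ := hfin ω
    have h1 : (fun t => AA T σ a t ω) = fun t => ∑ n ∈ Finset.range N,
        a n ω * (clamp (tt T n) (σ n ω) t - tt T n) := by
      funext t
      unfold AA
      apply tsum_eq_sum
      intro n hn
      rw [Finset.mem_range, not_lt] at hn
      rw [hN n hn, sub_self, mul_zero]
    rw [h1]
    refine continuous_finsetSum _ fun n _ => continuous_const.mul (Continuous.sub ?_ continuous_const)
    unfold clamp
    fun_prop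
  · unfold MM
    have h1 : ∀ n, a n ω * (W (clamp (tt T n) (σ n ω) 0) ω - W (tt T n) ω) = 0 := by
      intro n
      rw [clamp_of_le (tt_nonneg T hT n), sub_self, mul_zero]
    simp only [h1, tsum_zero]
  · unfold AA
    have h1 : ∀ n, a n ω * (clamp (tt T n) (σ n ω) 0 - tt T n) = 0 := by
      intro n
      rw [clamp_of_le (tt_nonneg T hT n), sub_self, mul_zero]
    simp only [h1, tsum_zero]

end Pool.Agent.Q79.BZ
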