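import Pool.Agent.Q79.BZ.Bas79
import Pool.Agent.Q297.BmExist

set_option autoImplicit false

namespace Pool.Agent.Q79.BZ

open MeasureTheory ProbabilityTheory Set Filter
open scoped NNReal ENNReal Topology Real
open Pool.Agent.Helper807.BS (Prog IsStop ClassD tt clamp tt_zero tt_lt_succ tt_mono tt_nonneg tt_lt)
open Pool.Agent.Q295.BZ

theorem hasLaw_completion {Ω : Type*} {X : Type*} {mΩ : MeasurableSpace Ω}
    {mX : MeasurableSpace X} (P : Measure Ω) (f : Ω → X) (hf : Measurable f) (μ : Measure X)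
    (h : HasLaw f μ P) : @HasLaw (NullMeasurableSpace Ω P) X _ mX f μ P.completion := by
  have hf' : @Measurable (NullMeasurableSpace Ω P) X _ mX f :=
    fun s hs => (hf hs).nullMeasurableSet
  refine ⟨hf'.aemeasurable, ?_⟩
  ext s hs
  rw [Measure.map_apply hf' hs]
  refine (Measure.completion_apply P (f ⁻¹' s)).trans ?_
  rw [← h.map_eq, Measure.map_apply hf hs]

theorem exb : S_EXB := by
  intro d
  obtain ⟨W, hW⟩ := Q297.Bm.exists_wiener
  have hWp : IsProbabilityMeasure W := (hW.hasLaw ∅).isProbabilityMeasure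
  set P₀ : Measure (Fin d → C(ℝ≥0, ℝ)) := Measure.pi fun _ => W with hP₀
  refine ⟨NullMeasurableSpace (Fin d → C(ℝ≥0, ℝ)) P₀, inferInstance, P₀.completion,
    fun i t ω => (ω i) t, ?_, inferInstance, ?_⟩
  · refine ⟨?_⟩
    refine (Measure.completion_apply P₀ univ).trans ?_
    exact measure_univ
  have hev : ∀ (i : Fin d) (t : ℝ≥0), Measurable (fun ω : Fin d → C(ℝ≥0, ℝ) => (ω i) t) :=
    fun i t => (Q297.PathC.measurable_eval t).comp (measurable_pi_apply i)
  refine ⟨fun i => ⟨⟨fun I => ?_⟩, ae_of_all _ fun ω => (ω i).continuous⟩, fun i t => ?_, ?_⟩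
  · refine hasLaw_completion P₀ (fun ω : Fin d → C(ℝ≥0, ℝ) => I.restrict fun x => (ω i) x) ?_ _ ?_
    · exact measurable_pi_lambda _ fun x => hev i x
    · have h1 := hW.hasLaw I
      have h2 : MeasurePreserving (Function.eval i) P₀ W := measurePreserving_eval _ i
      have h3 : HasLaw (Function.eval i) W P₀ := ⟨h2.measurable.aemeasurable, h2.map_eq⟩
      exact h1.comp h3
  · exact fun s hs => (hev i t hs).nullMeasurableSet
  · have h1 : iIndepFun (fun (i : Fin d) (ω : Fin d → C(ℝ≥0, ℝ)) (t : ℝ≥0) => (ω i) t) P₀ :=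
      iIndepFun_pi (X := fun (_ : Fin d) (x : C(ℝ≥0, ℝ)) (t : ℝ≥0) => x t)
        fun i => (measurable_pi_lambda _ fun t => Q297.PathC.measurable_eval t).aemeasurable
    rw [iIndepFun_iff_measure_inter_preimage_eq_mul] at h1
    refine (iIndepFun_iff_measure_inter_preimage_eq_mul
      (Ω := NullMeasurableSpace (Fin d → C(ℝ≥0, ℝ)) P₀) (μ := P₀.completion)).2 ?_
    intro S sets H
    have h2 := h1 S H
    refine (Measure.completion_apply P₀ _).trans (h2.trans ?_)
    exact Finset.prod_congr rfl fun i _ => (Measure.completion_apply P₀ _).symm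

end Pool.Agent.Q79.BZ
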