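import Pool.Agent.Q79.BZ.Bas79

set_option autoImplicit false

namespace Pool.Agent.Q79.BZ

open MeasureTheory ProbabilityTheory Set Filter
open scoped NNReal ENNReal Topology Real
open Pool.Agent.Helper807.BS (Prog IsStop ClassD tt clamp tt_zero tt_lt_succ tt_mono tt_nonneg tt_lt)
open Pool.Agent.Q295.BZ

universe u

/-- the integral of one step -/
theorem step_int (a s T t c : ℝ) (has : a ≤ s) (hsT : s ≤ T) (htT : t ≤ T) :
    ∫ r in t..T, (if a < r ∧ r ≤ s then c else 0) = c * (clamp a s T - clamp a s t) := by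
  have h1 : (fun r : ℝ => if a < r ∧ r ≤ s then c else 0) = (Ioc a s).indicator fun _ => c := by
    funext r
    rw [Set.indicator_apply]
    simp only [mem_Ioc]
  rw [h1, intervalIntegral.integral_of_le htT,
    MeasureTheory.setIntegral_indicator measurableSet_Ioc, Ioc_inter_Ioc,
    MeasureTheory.setIntegral_const, smul_eq_mul, mul_comm]
  congr 1
  have h2 : T ⊓ s = s := inf_eq_right.2 hsT
  rw [h2, Measure.real, Real.volume_Ioc]
  unfold clamp
  rw [min_eq_right hsT, max_eq_right has, ENNReal.toReal_ofReal']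
  rcases le_total t a with h | h
  · have h3 : t ⊔ a = a := sup_eq_right.2 h
    rw [h3, max_eq_left (sub_nonneg.2 has), max_eq_left ((min_le_left _ _).trans h)]
  · have h3 : t ⊔ a = t := sup_eq_left.2 h
    rw [h3]
    rcases le_total t s with h' | h'
    · rw [max_eq_left (sub_nonneg.2 h'), min_eq_left h', max_eq_right h]
    · rw [max_eq_right (sub_nonpos.2 h'), min_eq_right h', max_eq_right has, sub_self]

theorem step_ii (a s T t c : ℝ) :
    IntervalIntegrable (fun r : ℝ => if a < r ∧ r ≤ s then c else 0) volume t T := by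
  have h1 : (fun r : ℝ => if a < r ∧ r ≤ s then c else 0) = (Ioc a s).indicator fun _ => c := by
    funext r
    rw [Set.indicator_apply]
    simp only [mem_Ioc]
  rw [h1]
  constructor
  · exact (integrableOn_const (by simp)).indicator measurableSet_Ioc
  · exact (integrableOn_const (by simp)).indicator measurableSet_Ioc

theorem int : S_INT.{u} := by
  intro Ω mΩ F T hT σ a c hσ φ hφ hac
  have hzz : ∀ ω, ∃ N, ∀ s, ZZ T σ a s ω =
      ∑ n ∈ Finset.range N, (if tt T n < s ∧ s ≤ σ n ω then a n ω else 0) ∧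
      φ (ZZ T σ a s ω) = ∑ n ∈ Finset.range N, (if tt T n < s ∧ s ≤ σ n ω then c n ω else 0) ∧
      ∀ n, N ≤ n → σ n ω = tt T n := by
    intro ω
    obtain ⟨N, hN⟩ := hσ.fin ω
    refine ⟨N, fun s => ?_⟩
    have h1 : ZZ T σ a s ω =
        ∑ n ∈ Finset.range N, (if tt T n < s ∧ s ≤ σ n ω then a n ω else 0) := by
      unfold ZZ
      apply tsum_eq_sum
      intro n hn
      rw [Finset.mem_range, not_lt] at hn
      rw [hN n hn]
      exact if_neg fun h => absurd h.2 (not_le.2 h.1)
    refine ⟨h1, ?_, hN⟩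
    rw [h1]
    by_cases hex : ∃ k, k < N ∧ tt T k < s ∧ s ≤ σ k ω
    · obtain ⟨k, hk, hk1, hk2⟩ := hex
      have huniq : ∀ n, tt T n < s → s ≤ σ n ω → n = k := by
        intro n hn1 hn2
        rcases lt_trichotomy n k with h | h | h
        · exact absurd ((hn2.trans (hσ.hi n ω)).trans (tt_mono T hT h)) (not_le.2 hk1)
        · exact h
        · exact absurd ((hk2.trans (hσ.hi k ω)).trans (tt_mono T hT h)) (not_le.2 hn1)
      rw [Finset.sum_eq_single k, Finset.sum_eq_single k, if_pos ⟨hk1, hk2⟩, if_pos ⟨hk1, hk2⟩]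
      · exact hac k ω
      · intro n _ hnk
        exact if_neg fun h => hnk (huniq n h.1 h.2)
      · intro h
        exact absurd (Finset.mem_range.2 hk) h
      · intro n _ hnk
        exact if_neg fun h => hnk (huniq n h.1 h.2)
      · intro h
        exact absurd (Finset.mem_range.2 hk) h
    · rw [Finset.sum_eq_zero, Finset.sum_eq_zero, hφ]
      · intro n hn
        exact if_neg fun h => hex ⟨n, Finset.mem_range.1 hn, h⟩
      · intro n hn
        exact if_neg fun h => hex ⟨n, Finset.mem_range.1 hn, h⟩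
  constructor
  · intro ω t ht
    obtain ⟨N, hN⟩ := hzz ω
    have h1 : ∀ s, AA T σ c s ω = ∑ n ∈ Finset.range N,
        c n ω * (clamp (tt T n) (σ n ω) s - tt T n) := by
      intro s
      unfold AA
      apply tsum_eq_sum
      intro n hn
      rw [Finset.mem_range, not_lt] at hn
      rw [(hN 0).2.2 n hn, clamp_self, sub_self, mul_zero]
    have h2 : (fun s => φ (ZZ T σ a s ω)) = fun s => ∑ n ∈ Finset.range N,
        (if tt T n < s ∧ s ≤ σ n ω then c n ω else 0) := by
      funext s
      exact (hN s).2.1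
    rw [h1, h1, h2, intervalIntegral.integral_finsetSum fun n _ => step_ii _ _ _ _ _,
      ← Finset.sum_sub_distrib]
    refine Finset.sum_congr rfl fun n _ => ?_
    rw [step_int _ _ _ _ _ (hσ.lo n ω) ((hσ.hi n ω).trans (tt_lt T hT _).le) ht.2]
    ring
  · intro ω
    obtain ⟨N, hN⟩ := hzz ω
    have h1 : ∀ s, |ZZ T σ a s ω| ≤ ∑ n ∈ Finset.range N, |a n ω| := by
      intro s
      rw [(hN s).1]
      refine (Finset.abs_sum_le_sum_abs _ _).trans (Finset.sum_le_sum fun n _ => ?_)
      split_ifs
      · exact le_rfl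
      · rw [abs_zero]
        exact abs_nonneg _
    have h2 : ∀ s, ENNReal.ofReal ((ZZ T σ a s ω) ^ 2) ≤
        ENNReal.ofReal ((∑ n ∈ Finset.range N, |a n ω|) ^ 2) := by
      intro s
      apply ENNReal.ofReal_le_ofReal
      rw [← sq_abs (ZZ T σ a s ω)]
      exact pow_le_pow_left₀ (abs_nonneg _) (h1 s) 2
    refine lt_of_le_of_lt (lintegral_mono h2) ?_
    rw [lintegral_const]
    refine ENNReal.mul_lt_top ENNReal.ofReal_lt_top ?_
    rw [Measure.restrict_apply_univ, Real.volume_Icc]
    exact ENNReal.ofReal_lt_top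

end Pool.Agent.Q79.BZ
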