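import Pool.Agent.Q79.BZ.ItoB

set_option autoImplicit false

namespace Pool.Agent.Q79.BZ

open MeasureTheory ProbabilityTheory Set Filter
open scoped NNReal ENNReal Topology Real
open Pool.Agent.Helper807.BS (Prog IsStop ClassD tt clamp tt_zero tt_lt_succ tt_mono tt_nonneg tt_lt)
open Pool.Agent.Q295.BZ

universe u

noncomputable def blk {Ω : Type u} {d : ℕ} (T : ℝ) (σ a : ℕ → Ω → ℝ) (i : Fin d) (n : ℕ)
    (p : ℕ × ℕ) : Blk d Ω :=
  ⟨gr T n p.1 p.2, gr T n p.1 (p.2 + 1), i,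
    fun ω => if gr T n p.1 p.2 < σ p.1 ω then max (-(n : ℝ)) (min n (a p.1 ω)) else 0⟩

noncomputable def HH {Ω : Type u} {d : ℕ} (T : ℝ) (σ a : ℕ → Ω → ℝ) (i : Fin d) (n : ℕ) :
    List (Blk d Ω) :=
  (Finset.range n ×ˢ Finset.range n).toList.map (blk T σ a i n)

theorem HH_sum {Ω : Type u} {d : ℕ} (T : ℝ) (σ a : ℕ → Ω → ℝ) (i : Fin d) (n : ℕ)
    (f : Blk d Ω → ℝ) : ((HH T σ a i n).map f).sum =
      ∑ k ∈ Finset.range n, ∑ j ∈ Finset.range n, f (blk T σ a i n (k, j)) := by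
  unfold HH
  rw [List.map_map, Finset.sum_map_toList, Finset.sum_product]
  rfl

theorem sval_HH_ne {Ω : Type u} {d : ℕ} (T : ℝ) (σ a : ℕ → Ω → ℝ) (i l : Fin d) (hl : l ≠ i)
    (n : ℕ) (s : ℝ) (ω : Ω) : sval (HH T σ a i n) l s ω = 0 := by
  unfold sval
  rw [HH_sum]
  refine Finset.sum_eq_zero fun k _ => Finset.sum_eq_zero fun j _ => ?_
  rw [if_neg]
  rintro ⟨h, _⟩
  exact hl h.symm

theorem sval_HH {Ω : Type u} {d : ℕ} (T : ℝ) (hT : 0 < T) (σ a : ℕ → Ω → ℝ)
    (hσ : ∀ k ω, σ k ω ≤ tt T (k + 1)) (i : Fin d)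
    (n : ℕ) (hn : 0 < n) (s : ℝ) (ω : Ω) : sval (HH T σ a i n) i s ω =
      ∑ k ∈ Finset.range n, (if tt T k < s ∧ s ≤ gr T n k (JJ T n k (σ k ω)) then
        max (-(n : ℝ)) (min n (a k ω)) else 0) := by
  unfold sval
  rw [HH_sum]
  refine Finset.sum_congr rfl fun k _ => ?_
  rw [← stage_sval T hT n k hn (σ k ω) _ s (hσ k ω)]
  refine Finset.sum_congr rfl fun j _ => ?_
  simp only [blk, true_and]

theorem sint_HH {Ω : Type u} {d : ℕ} (T : ℝ) (hT : 0 < T) (σ a : ℕ → Ω → ℝ)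
    (hσ : ∀ k ω, σ k ω ≤ tt T (k + 1)) (i : Fin d) (W : Fin d → ℝ → Ω → ℝ)
    (n : ℕ) (hn : 0 < n) (t : ℝ) (ω : Ω) : sint W (HH T σ a i n) t ω =
      ∑ k ∈ Finset.range n, max (-(n : ℝ)) (min n (a k ω)) *
        (W i (min (gr T n k (JJ T n k (σ k ω))) t) ω - W i (min (tt T k) t) ω) := by
  unfold sint
  rw [HH_sum]
  refine Finset.sum_congr rfl fun k _ => ?_
  rw [← stage_sint T hT n k hn (σ k ω) _ t (hσ k ω) (fun r => W i r ω)]
  refine Finset.sum_congr rfl fun j _ => ?_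
  simp only [blk]

theorem JJ_self (T : ℝ) (n k : ℕ) : JJ T n k (tt T k) = 0 := by
  unfold JJ
  rw [sub_self, zero_mul, zero_div, Nat.ceil_zero]

theorem clip_eq {n : ℕ} {x : ℝ} (h : |x| ≤ n) : max (-(n : ℝ)) (min n x) = x := by
  rw [abs_le] at h
  rw [min_eq_right h.2, max_eq_right h.1]

theorem clip_le (n : ℕ) (x : ℝ) : |max (-(n : ℝ)) (min n x)| ≤ n := by
  have h : (0 : ℝ) ≤ n := Nat.cast_nonneg n
  rw [abs_le]
  exact ⟨le_max_left _ _, max_le (by linarith) (min_le_left _ _)⟩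

theorem sval_HH' {Ω : Type u} {d : ℕ} (T : ℝ) (hT : 0 < T) (σ a : ℕ → Ω → ℝ)
    (hσ : ∀ k ω, σ k ω ≤ tt T (k + 1)) (i : Fin d)
    (n : ℕ) (hn : 0 < n) (ω : Ω) (N : ℕ) (hN : ∀ k, N ≤ k → σ k ω = tt T k) (hNn : N ≤ n)
    (ha : ∀ k < N, |a k ω| ≤ n) (s : ℝ) : sval (HH T σ a i n) i s ω =
      ∑ k ∈ Finset.range N, (if tt T k < s ∧ s ≤ gr T n k (JJ T n k (σ k ω)) then
        a k ω else 0) := by
  rw [sval_HH T hT σ a hσ i n hn s ω]
  symm
  refine (Finset.sum_congr rfl fun k hk => ?_).trans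
    (Finset.sum_subset (Finset.range_subset_range.2 hNn) fun k _ hk => ?_)
  · rw [clip_eq (ha k (Finset.mem_range.1 hk))]
  · rw [Finset.mem_range, not_lt] at hk
    rw [hN k hk, JJ_self, gr_zero]
    exact if_neg fun h => absurd h.2 (not_le.2 h.1)

theorem sint_HH' {Ω : Type u} {d : ℕ} (T : ℝ) (hT : 0 < T) (σ a : ℕ → Ω → ℝ)
    (hσ : ∀ k ω, σ k ω ≤ tt T (k + 1)) (i : Fin d) (W : Fin d → ℝ → Ω → ℝ)
    (n : ℕ) (hn : 0 < n) (ω : Ω) (N : ℕ) (hN : ∀ k, N ≤ k → σ k ω = tt T k) (hNn : N ≤ n)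
    (ha : ∀ k < N, |a k ω| ≤ n) (t : ℝ) : sint W (HH T σ a i n) t ω =
      ∑ k ∈ Finset.range N, a k ω *
        (W i (min (gr T n k (JJ T n k (σ k ω))) t) ω - W i (min (tt T k) t) ω) := by
  rw [sint_HH T hT σ a hσ i W n hn t ω]
  symm
  refine (Finset.sum_congr rfl fun k hk => ?_).trans
    (Finset.sum_subset (Finset.range_subset_range.2 hNn) fun k _ hk => ?_)
  · rw [clip_eq (ha k (Finset.mem_range.1 hk))]
  · rw [Finset.mem_range, not_lt] at hk
    rw [hN k hk, JJ_self, gr_zero, sub_self, mul_zero]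

/-- the lintegral estimate -/
theorem lint_bound (T : ℝ) (N : ℕ) (x y z : ℕ → ℝ) (η : ℝ) (hη : ∀ k < N, y k ≤ x k + η)
    (f : ℝ → ℝ) (hf : ∀ s, f s = ∑ k ∈ Finset.range N, (if x k < s ∧ s ≤ y k then z k else 0)) :
    ∫⁻ s in Icc (0 : ℝ) T, ENNReal.ofReal (f s ^ 2) ≤
      (∑ k ∈ Finset.range N, ENNReal.ofReal (N * z k ^ 2)) * ENNReal.ofReal η := by
  have h1 : ∀ s, ENNReal.ofReal (f s ^ 2) ≤
      ∑ k ∈ Finset.range N, (Ioc (x k) (y k)).indicator (fun _ => ENNReal.ofReal (N * z k ^ 2)) s := by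
    intro s
    have h2 : f s ^ 2 ≤ N * ∑ k ∈ Finset.range N, (if x k < s ∧ s ≤ y k then z k else 0) ^ 2 := by
      rw [hf s]
      have := sq_sum_le_card_mul_sum_sq (s := Finset.range N)
        (f := fun k => if x k < s ∧ s ≤ y k then z k else 0)
      rwa [Finset.card_range] at this
    refine (ENNReal.ofReal_le_ofReal h2).trans (le_of_eq ?_)
    rw [Finset.mul_sum, ENNReal.ofReal_sum_of_nonneg fun k _ => by positivity]
    refine Finset.sum_congr rfl fun k _ => ?_
    rw [Set.indicator_apply]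
    by_cases h : x k < s ∧ s ≤ y k
    · rw [if_pos h, if_pos (show s ∈ Ioc (x k) (y k) from h)]
    · rw [if_neg h, if_neg (show ¬ s ∈ Ioc (x k) (y k) from h)]
      simp
  refine (lintegral_mono h1).trans ((setLIntegral_le_lintegral _ _).trans ?_)
  rw [lintegral_finsetSum _ fun k _ => measurable_const.indicator measurableSet_Ioc,
    Finset.sum_mul]
  refine Finset.sum_le_sum fun k hk => ?_
  rw [lintegral_indicator_const measurableSet_Ioc, Real.volume_Ioc]
  gcongr
  have := hη k (Finset.mem_range.1 hk)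
  linarith

theorem simple_HH {Ω : Type u} {F : ℝ → MeasurableSpace Ω}
    (hF : ∀ s t : ℝ, s ≤ t → F s ≤ F t) {d : ℕ} (T : ℝ) (hT : 0 < T) (σ a : ℕ → Ω → ℝ)
    (hσ : Sch T F σ) (ha : ∀ n, Measurable[F (tt T n), borel ℝ] (a n)) (i : Fin d) (n : ℕ) :
    IsSimple T F (HH T σ a i n) := by
  intro b hb
  unfold HH at hb
  rw [List.mem_map] at hb
  obtain ⟨p, hp, rfl⟩ := hb
  rw [Finset.mem_toList, Finset.mem_product, Finset.mem_range, Finset.mem_range] at hp
  obtain ⟨hp1, hp2⟩ := hp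
  have hn : 0 < n := by omega
  have h0 : 0 ≤ gr T n p.1 p.2 := (tt_nonneg T hT _).trans (gr_ge T hT n p.1 p.2)
  refine ⟨h0, gr_mono T hT n p.1 (Nat.le_succ _), ?_, ?_, n, ?_⟩
  · refine (gr_mono T hT n p.1 (show p.2 + 1 ≤ n by omega)).trans ?_
    rw [gr_self T n p.1 hn]
    exact (tt_lt T hT _).le
  · have h1 : Measurable[F (gr T n p.1 p.2), borel ℝ] (a p.1) :=
      (ha p.1).mono (hF _ _ (gr_ge T hT n p.1 p.2)) le_rfl
    have h2 : Measurable[F (gr T n p.1 p.2), borel ℝ]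
        (fun ω => max (-(n : ℝ)) (min n (a p.1 ω))) := by
      exact (measurable_const.max (measurable_const.min measurable_id)).comp h1
    exact Measurable.ite (hσ.st p.1 _ h0) h2 measurable_const
  · intro ω
    show |if gr T n p.1 p.2 < σ p.1 ω then max (-(n : ℝ)) (min n (a p.1 ω)) else 0| ≤ n
    split_ifs
    · exact clip_le n _
    · rw [abs_zero]
      exact Nat.cast_nonneg n

theorem ito : S_ITO.{u} := by
  intro hPWC hPRM hPRZ hCTM Ω mΩ P _ F W hW d i Bt hBt T hT σ a hσ ha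
  obtain ⟨hc1, hc2, hc3, hc4⟩ := hCTM Ω F W hW.cont T hT σ a hσ
  have hlo := hσ.lo
  have hhi := hσ.hi
  refine hPWC Ω P d T hT F hW.le (fun _ => W) Bt
    (fun j t ω => if j = i then ZZ T σ a t ω else 0) (MM T W σ a) (HH T σ a i)
    (fun _ ω => hW.cont ω) (fun _ t ht => (hW.adapted t ht).mono (hW.le t) le_rfl) ?_
    (fun ω => (hc1 ω).continuousOn) ?_ (fun n => simple_HH hW.mono T hT σ a hσ ha i n) ?_ ?_ ?_
  · intro j
    by_cases hj : j = i
    · simp only [hj, if_true]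
      have h1 := hPRZ Ω P F W hW T hT σ a hσ ha T ⟨hT.le, le_rfl⟩
      refine Measurable.mono h1 ?_ le_rfl
      exact sup_le_sup le_rfl (MeasurableSpace.comap_mono (hW.le T))
    · simp only [hj, if_false]
      exact measurable_const
  · intro t ht
    have h1 := (hPRM Ω P F W hW T hT σ a hσ ha).1 t ht
    have h2 : Measurable[F t, (inferInstance : MeasurableSpace (Icc (0 : ℝ) t)).prod (F t)]
        (fun ω : Ω => ((⟨t, ht.1, le_rfl⟩ : Icc (0 : ℝ) t), ω)) := by
      exact @Measurable.prodMk Ω (F t) (Icc (0 : ℝ) t) Ω _ (F t) _ _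
        (@measurable_const (Icc (0 : ℝ) t) Ω _ (F t) _) (@measurable_id Ω (F t))
    exact (h1.comp h2).mono (hW.le t) le_rfl
  · intro n t ht
    have h1 : ∀ᵐ ω ∂P, ∀ p : ℕ × ℕ, W (min (gr T n p.1 p.2) t) ω =
        Bt i (min (gr T n p.1 p.2) t) ω := by
      rw [ae_all_iff]
      intro p
      exact hBt _
    filter_upwards [h1] with ω hω
    unfold sint
    rw [HH_sum, HH_sum]
    refine Finset.sum_congr rfl fun k _ => Finset.sum_congr rfl fun j _ => ?_
    simp only [blk]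
    rw [← hω (k, j + 1), ← hω (k, j)]
  · intro ω
    obtain ⟨N, hN⟩ := hσ.fin ω
    obtain ⟨A, hA⟩ : ∃ A : ℕ, ∀ k < N, |a k ω| ≤ A := by
      obtain ⟨A, hA⟩ := exists_nat_ge (∑ k ∈ Finset.range N, |a k ω|)
      refine ⟨A, fun k hk => le_trans ?_ hA⟩
      exact Finset.single_le_sum (f := fun k => |a k ω|) (fun _ _ => abs_nonneg _)
        (Finset.mem_range.2 hk)
    have hlim : Tendsto (fun n : ℕ => (∑ k ∈ Finset.range N, ENNReal.ofReal (N * (a k ω) ^ 2)) *
        ENNReal.ofReal (T / n)) atTop (𝓝 0) := by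
      have h1 : Tendsto (fun n : ℕ => ENNReal.ofReal (T / n)) atTop (𝓝 (ENNReal.ofReal 0)) :=
        ENNReal.tendsto_ofReal (tendsto_const_div_atTop_nhds_zero_nat T)
      rw [ENNReal.ofReal_zero] at h1
      have h2 : (∑ k ∈ Finset.range N, ENNReal.ofReal (N * (a k ω) ^ 2)) ≠ ∞ :=
        ENNReal.sum_ne_top.2 fun k _ => ENNReal.ofReal_ne_top
      have h3 := ENNReal.Tendsto.const_mul h1 (Or.inr h2)
      rwa [mul_zero] at h3
    refine tendsto_of_tendsto_of_tendsto_of_le_of_le' tendsto_const_nhds hlim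
      (Eventually.of_forall fun _ => zero_le) ?_
    filter_upwards [eventually_ge_atTop (max (max N A) 1)] with n hn
    have hn1 : 0 < n := by omega
    have hnN : N ≤ n := by omega
    have hnA : A ≤ n := by omega
    have hA' : ∀ k < N, |a k ω| ≤ n := fun k hk => (hA k hk).trans (by exact_mod_cast hnA)
    have h1 : ∀ s, ∑ l, (sval (HH T σ a i n) l s ω - (if l = i then ZZ T σ a s ω else 0)) ^ 2 =
        (sval (HH T σ a i n) i s ω - ZZ T σ a s ω) ^ 2 := by
      intro s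
      rw [Finset.sum_eq_single i]
      · rw [if_pos rfl]
      · intro l _ hl
        rw [sval_HH_ne T σ a i l hl, if_neg hl]
        norm_num
      · intro h
        exact absurd (Finset.mem_univ i) h
    simp_rw [h1]
    refine lint_bound T N (fun k => σ k ω) (fun k => gr T n k (JJ T n k (σ k ω)))
      (fun k => a k ω) (T / n) (fun k _ => rho_le T hT n k hn1 _ (hlo k ω)) _ ?_
    intro s
    have h2 : ZZ T σ a s ω =
        ∑ k ∈ Finset.range N, (if tt T k < s ∧ s ≤ σ k ω then a k ω else 0) := by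
      unfold ZZ
      apply tsum_eq_sum
      intro k hk
      rw [Finset.mem_range, not_lt] at hk
      rw [hN k hk]
      exact if_neg fun h => absurd h.2 (not_le.2 h.1)
    rw [h2, sval_HH' T hT σ a hhi i n hn1 ω N hN hnN hA' s, ← Finset.sum_sub_distrib]
    refine Finset.sum_congr rfl fun k _ => ?_
    have h3 := hlo k ω
    have h4 := rho_ge T hT n k hn1 (σ k ω)
    by_cases h5 : tt T k < s
    · by_cases h6 : s ≤ σ k ω
      · rw [if_pos ⟨h5, h6.trans h4⟩, if_pos ⟨h5, h6⟩,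
          if_neg (fun h => absurd h6 (not_le.2 h.1)), sub_self]
      · rw [if_neg (c := tt T k < s ∧ s ≤ σ k ω) (fun h => h6 h.2), sub_zero]
        by_cases h7 : s ≤ gr T n k (JJ T n k (σ k ω))
        · rw [if_pos ⟨h5, h7⟩, if_pos ⟨not_le.1 h6, h7⟩]
        · rw [if_neg (fun h => h7 h.2), if_neg (fun h => h7 h.2)]
    · rw [if_neg (fun h => h5 h.1), if_neg (fun h => h5 h.1),
        if_neg (fun h => h5 (lt_of_le_of_lt h3 h.1)), sub_self]
  · intro ω ε hε
    obtain ⟨N, hN⟩ := hσ.fin ω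
    obtain ⟨A, hA⟩ : ∃ A : ℕ, ∀ k < N, |a k ω| ≤ A := by
      obtain ⟨A, hA⟩ := exists_nat_ge (∑ k ∈ Finset.range N, |a k ω|)
      refine ⟨A, fun k hk => le_trans ?_ hA⟩
      exact Finset.single_le_sum (f := fun k => |a k ω|) (fun _ _ => abs_nonneg _)
        (Finset.mem_range.2 hk)
    have hunif : UniformContinuousOn (fun t => W t ω) (Icc 0 T) :=
      isCompact_Icc.uniformContinuousOn_of_continuous (hW.cont ω).continuousOn
    set K : ℝ := 1 + ∑ k ∈ Finset.range N, |a k ω| with hK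
    have hKpos : 0 < K := by
      have : 0 ≤ ∑ k ∈ Finset.range N, |a k ω| := Finset.sum_nonneg fun _ _ => abs_nonneg _
      linarith
    obtain ⟨δ, hδ, hδ2⟩ := Metric.uniformContinuousOn_iff.1 hunif (ε / K) (by positivity)
    have hsmall : ∀ᶠ n : ℕ in atTop, T / n < δ :=
      (tendsto_const_div_atTop_nhds_zero_nat T).eventually (gt_mem_nhds hδ)
    filter_upwards [eventually_ge_atTop (max (max N A) 1), hsmall] with n hn hnδ t ht
    have hn1 : 0 < n := by omega
    have hnN : N ≤ n := by omega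
    have hnA : A ≤ n := by omega
    have hA' : ∀ k < N, |a k ω| ≤ n := fun k hk => (hA k hk).trans (by exact_mod_cast hnA)
    have h2 : MM T W σ a t ω =
        ∑ k ∈ Finset.range N, a k ω * (W (clamp (tt T k) (σ k ω) t) ω - W (tt T k) ω) := by
      unfold MM
      apply tsum_eq_sum
      intro k hk
      rw [Finset.mem_range, not_lt] at hk
      rw [hN k hk, clamp_self, sub_self, mul_zero]
    rw [h2, sint_HH' T hT σ a hhi i (fun _ => W) n hn1 ω N hN hnN hA' t,
      ← Finset.sum_sub_distrib]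
    have h3 : ∀ k ∈ Finset.range N, |a k ω *
        (W (min (gr T n k (JJ T n k (σ k ω))) t) ω - W (min (tt T k) t) ω) -
        a k ω * (W (clamp (tt T k) (σ k ω) t) ω - W (tt T k) ω)| ≤ |a k ω| * (ε / K) := by
      intro k _
      rw [← mul_sub, abs_mul]
      refine mul_le_mul_of_nonneg_left ?_ (abs_nonneg _)
      have h4 := hlo k ω
      have h5 := rho_ge T hT n k hn1 (σ k ω)
      have h6 := rho_le T hT n k hn1 (σ k ω) h4
      have h7 := rho_le_T T hT n k hn1 (σ k ω) (hhi k ω)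
      have h8 := tt_nonneg T hT k
      rcases le_total t (tt T k) with h | h
      · rw [clamp_of_le h, min_eq_right h, min_eq_right (h.trans (h4.trans h5)), sub_self,
          sub_self, sub_zero, abs_zero]
        positivity
      · have h9 : clamp (tt T k) (σ k ω) t = min t (σ k ω) := by
          unfold clamp
          exact max_eq_right (le_min h h4)
        rw [h9, min_eq_left h, sub_sub_sub_cancel_right, ← Real.dist_eq]
        refine (hδ2 _ ⟨le_min (h8.trans (h4.trans h5)) ht.1, (min_le_right _ _).trans ht.2⟩ _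
          ⟨le_min ht.1 (h8.trans h4), (min_le_left _ _).trans ht.2⟩ ?_).le
        rw [Real.dist_eq, abs_lt]
        have h10 : min t (σ k ω) ≤ min (gr T n k (JJ T n k (σ k ω))) t :=
          le_min ((min_le_right _ _).trans h5) (min_le_left _ _)
        have h11 : min (gr T n k (JJ T n k (σ k ω))) t ≤ min t (σ k ω) + T / n := by
          rcases le_total t (σ k ω) with h' | h'
          · rw [min_eq_left h']
            have : 0 ≤ T / n := by positivity
            exact (min_le_right _ _).trans (by linarith)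
          · rw [min_eq_right h']
            exact (min_le_left _ _).trans h6
        constructor <;> linarith
    refine (Finset.abs_sum_le_sum_abs _ _).trans ((Finset.sum_le_sum h3).trans ?_)
    rw [← Finset.sum_mul]
    have h4 : (∑ k ∈ Finset.range N, |a k ω|) * (ε / K) ≤ K * (ε / K) := by
      refine mul_le_mul_of_nonneg_right ?_ (by positivity)
      linarith
    refine h4.trans (le_of_eq ?_)
    field_simp

end Pool.Agent.Q79.BZ
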