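import Pool.Agent.Q79.BZ.Bas79

set_option autoImplicit false

namespace Pool.Agent.Q79.BZ

open MeasureTheory ProbabilityTheory Set Filter
open scoped NNReal ENNReal Topology Real
open Pool.Agent.Helper807.BS (Prog IsStop ClassD tt clamp tt_zero tt_lt_succ tt_mono tt_nonneg tt_lt)
open Pool.Agent.Q295.BZ

universe u

theorem sum_ind (g : ℕ → ℝ) (hg : Monotone g) (J : ℕ) (s c : ℝ) :
    ∑ j ∈ Finset.range J, (if g j < s ∧ s ≤ g (j + 1) then c else 0) =
      if g 0 < s ∧ s ≤ g J then c else 0 := by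
  induction J with
  | zero =>
    rw [Finset.sum_range_zero, if_neg]
    rintro ⟨h1, h2⟩
    linarith
  | succ J ih =>
    rw [Finset.sum_range_succ, ih]
    have h1 := hg (Nat.zero_le J)
    have h2 := hg (Nat.le_succ J)
    by_cases hs : s ≤ g J
    · rw [if_neg (c := g J < s ∧ s ≤ g (J + 1)) (fun h => absurd hs (not_le.2 h.1)), add_zero]
      by_cases h0 : g 0 < s
      · rw [if_pos ⟨h0, hs⟩, if_pos ⟨h0, hs.trans h2⟩]
      · rw [if_neg (fun h => h0 h.1), if_neg (fun h => h0 h.1)]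
    · rw [not_le] at hs
      rw [if_neg (c := g 0 < s ∧ s ≤ g J) (fun h => absurd h.2 (not_le.2 hs)), zero_add]
      by_cases h0 : s ≤ g (J + 1)
      · rw [if_pos ⟨hs, h0⟩, if_pos ⟨h1.trans_lt hs, h0⟩]
      · rw [if_neg (fun h => h0 h.2), if_neg (fun h => h0 h.2)]

theorem sum_cut (n J : ℕ) (hJ : J ≤ n) (f : ℕ → ℝ) :
    ∑ j ∈ Finset.range n, (if j < J then f j else 0) = ∑ j ∈ Finset.range J, f j := by
  rw [← Finset.sum_filter]
  congr 1
  ext j
  simp only [Finset.mem_filter, Finset.mem_range]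
  omega

/-- grid of stage `k` -/
noncomputable def gr (T : ℝ) (n k j : ℕ) : ℝ := tt T k + (tt T (k + 1) - tt T k) * ((j : ℝ) / n)

/-- the number of the first grid point after `x` -/
noncomputable def JJ (T : ℝ) (n k : ℕ) (x : ℝ) : ℕ :=
  ⌈(x - tt T k) * n / (tt T (k + 1) - tt T k)⌉₊

theorem gr_zero (T : ℝ) (n k : ℕ) : gr T n k 0 = tt T k := by
  unfold gr
  simp

theorem gr_mono (T : ℝ) (hT : 0 < T) (n k : ℕ) : Monotone (gr T n k) := by
  intro i j hij
  have h1 := tt_lt_succ T hT k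
  unfold gr
  have h2 : (i : ℝ) / n ≤ (j : ℝ) / n := by
    apply div_le_div_of_nonneg_right _ (Nat.cast_nonneg n)
    exact_mod_cast hij
  have h3 := mul_le_mul_of_nonneg_left h2 (sub_nonneg.2 h1.le)
  linarith

theorem gr_ge (T : ℝ) (hT : 0 < T) (n k j : ℕ) : tt T k ≤ gr T n k j := by
  rw [← gr_zero T n k]
  exact gr_mono T hT n k (Nat.zero_le j)

theorem gr_self (T : ℝ) (n k : ℕ) (hn : 0 < n) : gr T n k n = tt T (k + 1) := by
  unfold gr
  rw [div_self (by exact_mod_cast hn.ne'), mul_one]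
  ring

theorem gr_lt_iff (T : ℝ) (hT : 0 < T) (n k j : ℕ) (hn : 0 < n) (x : ℝ) :
    gr T n k j < x ↔ j < JJ T n k x := by
  have h1 := sub_pos.2 (tt_lt_succ T hT k)
  have h2 : (0 : ℝ) < n := by exact_mod_cast hn
  unfold gr JJ
  rw [Nat.lt_ceil, lt_div_iff₀ h1]
  constructor
  · intro h
    have h3 : (tt T (k + 1) - tt T k) * ((j : ℝ) / n) < x - tt T k := by linarith
    have h4 := mul_lt_mul_of_pos_right h3 h2
    have h5 : (tt T (k + 1) - tt T k) * ((j : ℝ) / n) * n = (j : ℝ) * (tt T (k + 1) - tt T k) := by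
      field_simp
    linarith
  · intro h
    have h5 : (tt T (k + 1) - tt T k) * ((j : ℝ) / n) * n = (j : ℝ) * (tt T (k + 1) - tt T k) := by
      field_simp
    rw [← h5] at h
    have h6 := lt_of_mul_lt_mul_right h h2.le
    linarith

theorem JJ_le (T : ℝ) (hT : 0 < T) (n k : ℕ) (hn : 0 < n) (x : ℝ) (hx : x ≤ tt T (k + 1)) :
    JJ T n k x ≤ n := by
  by_contra h
  rw [not_le, ← gr_lt_iff T hT n k n hn x, gr_self T n k hn] at h
  linarith

theorem rho_ge (T : ℝ) (hT : 0 < T) (n k : ℕ) (hn : 0 < n) (x : ℝ) :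
    x ≤ gr T n k (JJ T n k x) := by
  by_contra h
  rw [not_le, gr_lt_iff T hT n k _ hn x] at h
  exact lt_irrefl _ h

theorem tt_sub_le (T : ℝ) (hT : 0 < T) (k : ℕ) : tt T (k + 1) - tt T k ≤ T := by
  have h1 := tt_nonneg T hT k
  have h2 := (tt_lt T hT (k + 1)).le
  linarith

theorem rho_le (T : ℝ) (hT : 0 < T) (n k : ℕ) (hn : 0 < n) (x : ℝ) (hx : tt T k ≤ x) :
    gr T n k (JJ T n k x) ≤ x + T / n := by
  have h2 : (0 : ℝ) < n := by exact_mod_cast hn
  rcases Nat.eq_zero_or_pos (JJ T n k x) with h | h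
  · rw [h, gr_zero]
    have : 0 ≤ T / n := by positivity
    linarith
  · obtain ⟨m, hm⟩ : ∃ m, JJ T n k x = m + 1 := ⟨JJ T n k x - 1, by omega⟩
    have h3 : gr T n k m < x := by
      rw [gr_lt_iff T hT n k m hn x, hm]
      omega
    rw [hm]
    have h4 : gr T n k (m + 1) = gr T n k m + (tt T (k + 1) - tt T k) * (1 / n) := by
      unfold gr
      push_cast
      ring
    have h5 : (tt T (k + 1) - tt T k) * (1 / n) ≤ T / n := by
      rw [mul_one_div]
      exact div_le_div_of_nonneg_right (tt_sub_le T hT k) h2.le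
    linarith

theorem rho_le_T (T : ℝ) (hT : 0 < T) (n k : ℕ) (hn : 0 < n) (x : ℝ) (hx : x ≤ tt T (k + 1)) :
    gr T n k (JJ T n k x) ≤ T := by
  refine (gr_mono T hT n k (JJ_le T hT n k hn x hx)).trans ?_
  rw [gr_self T n k hn]
  exact (tt_lt T hT _).le

theorem stage_sval (T : ℝ) (hT : 0 < T) (n k : ℕ) (hn : 0 < n) (x c s : ℝ)
    (hx : x ≤ tt T (k + 1)) :
    ∑ j ∈ Finset.range n, (if gr T n k j < s ∧ s ≤ gr T n k (j + 1) then
      (if gr T n k j < x then c else 0) else 0) =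
      if tt T k < s ∧ s ≤ gr T n k (JJ T n k x) then c else 0 := by
  have h1 : ∀ j, (if gr T n k j < s ∧ s ≤ gr T n k (j + 1) then
      (if gr T n k j < x then c else 0) else 0) =
      if j < JJ T n k x then (if gr T n k j < s ∧ s ≤ gr T n k (j + 1) then c else 0) else 0 := by
    intro j
    by_cases h : gr T n k j < x
    · rw [if_pos h, if_pos ((gr_lt_iff T hT n k j hn x).1 h)]
    · rw [if_neg h, if_neg (fun h' => h ((gr_lt_iff T hT n k j hn x).2 h')), ite_self]
  simp_rw [h1]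
  rw [sum_cut n _ (JJ_le T hT n k hn x hx), sum_ind _ (gr_mono T hT n k), gr_zero]

theorem stage_sint (T : ℝ) (hT : 0 < T) (n k : ℕ) (hn : 0 < n) (x c t : ℝ)
    (hx : x ≤ tt T (k + 1)) (w : ℝ → ℝ) :
    ∑ j ∈ Finset.range n, (if gr T n k j < x then c else 0) *
      (w (min (gr T n k (j + 1)) t) - w (min (gr T n k j) t)) =
      c * (w (min (gr T n k (JJ T n k x)) t) - w (min (tt T k) t)) := by
  have h1 : ∀ j, (if gr T n k j < x then c else 0) *
      (w (min (gr T n k (j + 1)) t) - w (min (gr T n k j) t)) =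
      if j < JJ T n k x then
        c * (w (min (gr T n k (j + 1)) t) - w (min (gr T n k j) t)) else 0 := by
    intro j
    by_cases h : gr T n k j < x
    · rw [if_pos h, if_pos ((gr_lt_iff T hT n k j hn x).1 h)]
    · rw [if_neg h, if_neg (fun h' => h ((gr_lt_iff T hT n k j hn x).2 h')), zero_mul]
  simp_rw [h1]
  rw [sum_cut n _ (JJ_le T hT n k hn x hx), ← Finset.mul_sum,
    Finset.sum_range_sub (fun j => w (min (gr T n k j) t)), gr_zero]

end Pool.Agent.Q79.BZ
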