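import Pool.Agent.Q79.BZ.Bas79

set_option autoImplicit false

namespace Pool.Agent.Q79.BZ

open MeasureTheory ProbabilityTheory Set Filter
open scoped NNReal ENNReal Topology Real
open Pool.Agent.Helper807.BS (Prog IsStop ClassD tt clamp tt_zero tt_lt_succ tt_mono tt_nonneg tt_lt)
open Pool.Agent.Q295.BZ

universe u

/-- measurability of the two kinds of terms, abstractly -/
theorem term_aux {Ω' : Type u} [MeasurableSpace Ω'] (t b : ℝ) (hb : 0 ≤ b)
    (hbt : b < t) (w : ℝ → Ω' → ℝ)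
    (hw : Measurable (fun q : ℝ × Ω' => w (max 0 (min q.1 t)) q.2)) (hwb : Measurable (w b))
    (a s : Ω' → ℝ) (ha : Measurable a) (hs : Measurable (fun ω => min t (s ω))) :
    Measurable (fun q : Icc (0 : ℝ) t × Ω' => a q.2 * (w (clamp b (s q.2) q.1) q.2 - w b q.2)) ∧
    Measurable (fun q : Icc (0 : ℝ) t × Ω' => a q.2 * (clamp b (s q.2) q.1 - b)) := by
  have h1 : Measurable (fun q : Icc (0 : ℝ) t × Ω' => (q.1 : ℝ)) :=
    measurable_subtype_coe.comp measurable_fst
  have hcl : ∀ q : Icc (0 : ℝ) t × Ω', clamp b (s q.2) q.1 =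
      max b (min (q.1 : ℝ) (min t (s q.2))) := by
    intro q
    unfold clamp
    rw [← min_assoc, min_eq_left q.1.2.2]
  have h2 : Measurable (fun q : Icc (0 : ℝ) t × Ω' => clamp b (s q.2) q.1) := by
    simp_rw [hcl]
    exact measurable_const.max (h1.min (hs.comp measurable_snd))
  have ha' : Measurable (fun q : Icc (0 : ℝ) t × Ω' => a q.2) := ha.comp measurable_snd
  refine ⟨ha'.mul (Measurable.sub ?_ (hwb.comp measurable_snd)), ha'.mul (h2.sub_const b)⟩
  have h3 := hw.comp (h2.prodMk (measurable_snd (α := Icc (0 : ℝ) t) (β := Ω')))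
  have h4 : (fun q : Icc (0 : ℝ) t × Ω' => w (clamp b (s q.2) q.1) q.2) =
      ((fun q : ℝ × Ω' => w (max 0 (min q.1 t)) q.2) ∘
        fun q : Icc (0 : ℝ) t × Ω' => (clamp b (s q.2) q.1, q.2)) := by
    funext q
    have h5 : clamp b (s q.2) q.1 ≤ t := by
      unfold clamp
      exact max_le hbt.le ((min_le_left _ _).trans q.1.2.2)
    have h6 : 0 ≤ clamp b (s q.2) q.1 := by
      unfold clamp
      exact hb.trans (le_max_left _ _)
    simp only [Function.comp]
    rw [min_eq_left h5, max_eq_right h6]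
  rw [h4]
  exact h3

theorem prm : S_PRM.{u} := by
  intro Ω mΩ P _ F W hW T hT σ a hσ ha
  have key : ∀ t ∈ Icc (0 : ℝ) T, ∀ n,
      Measurable[(inferInstance : MeasurableSpace (Icc (0 : ℝ) t)).prod (F t), borel ℝ]
        (fun q : Icc (0 : ℝ) t × Ω => a n q.2 * (W (clamp (tt T n) (σ n q.2) q.1) q.2 -
          W (tt T n) q.2)) ∧
      Measurable[(inferInstance : MeasurableSpace (Icc (0 : ℝ) t)).prod (F t), borel ℝ]
        (fun q : Icc (0 : ℝ) t × Ω => a n q.2 * (clamp (tt T n) (σ n q.2) q.1 - tt T n)) := by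
    intro t ht n
    by_cases hn : t ≤ tt T n
    · have h1 : ∀ q : Icc (0 : ℝ) t × Ω, clamp (tt T n) (σ n q.2) q.1 = tt T n :=
        fun q => clamp_of_le (q.1.2.2.trans hn)
      simp only [h1, sub_self, mul_zero]
      exact ⟨measurable_const, measurable_const⟩
    · rw [not_le] at hn
      exact @term_aux Ω (F t) t (tt T n) (tt_nonneg T hT n) hn W (meas_W hW t ht.1)
        ((hW.adapted _ (tt_nonneg T hT n)).mono (hW.mono _ t hn.le) le_rfl) (a n) (σ n)
        ((ha n).mono (hW.mono _ t hn.le) le_rfl) (meas_tau hW.mono hT hσ n t)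
  have hfin : ∀ ω : Ω, ∃ N, ∀ n, N ≤ n → ∀ s : ℝ, clamp (tt T n) (σ n ω) s = tt T n := by
    intro ω
    obtain ⟨N, hN⟩ := hσ.fin ω
    refine ⟨N, fun n hn s => ?_⟩
    rw [hN n hn]
    exact clamp_self _ _
  constructor
  · intro t ht
    refine @meas_tsum_fin (Icc (0 : ℝ) t × Ω)
      ((inferInstance : MeasurableSpace (Icc (0 : ℝ) t)).prod (F t))
      (fun n q => a n q.2 * (W (clamp (tt T n) (σ n q.2) q.1) q.2 - W (tt T n) q.2))
      (fun n => (key t ht n).1) ?_
    intro q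
    obtain ⟨N, hN⟩ := hfin q.2
    refine ⟨N, fun n hn => ?_⟩
    rw [hN n hn, sub_self, mul_zero]
  · intro t ht
    refine @meas_tsum_fin (Icc (0 : ℝ) t × Ω)
      ((inferInstance : MeasurableSpace (Icc (0 : ℝ) t)).prod (F t))
      (fun n q => a n q.2 * (clamp (tt T n) (σ n q.2) q.1 - tt T n))
      (fun n => (key t ht n).2) ?_
    intro q
    obtain ⟨N, hN⟩ := hfin q.2
    refine ⟨N, fun n hn => ?_⟩
    rw [hN n hn, sub_self, mul_zero]

end Pool.Agent.Q79.BZ
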