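import Pool.Agent.Q79.BZ.Bas79

set_option autoImplicit false

namespace Pool.Agent.Q79.BZ

open MeasureTheory ProbabilityTheory Set Filter
open scoped NNReal ENNReal Topology Real
open Pool.Agent.Helper807.BS (Prog IsStop ClassD tt clamp tt_zero tt_lt_succ tt_mono tt_nonneg tt_lt)
open Pool.Agent.Q295.BZ

universe u

theorem termz_aux {Ω' : Type u} [MeasurableSpace Ω'] (t b : ℝ)
    (a s : Ω' → ℝ) (ha : Measurable a) (hs : Measurable (fun ω => min t (s ω))) :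
    Measurable (fun q : Icc (0 : ℝ) t × Ω' =>
      if b < (q.1 : ℝ) ∧ (q.1 : ℝ) ≤ s q.2 then a q.2 else 0) := by
  have h1 : Measurable (fun q : Icc (0 : ℝ) t × Ω' => (q.1 : ℝ)) :=
    measurable_subtype_coe.comp measurable_fst
  have ha' : Measurable (fun q : Icc (0 : ℝ) t × Ω' => a q.2) := ha.comp measurable_snd
  have h2 : MeasurableSet {q : Icc (0 : ℝ) t × Ω' | b < (q.1 : ℝ) ∧ (q.1 : ℝ) ≤ s q.2} := by
    have h3 : {q : Icc (0 : ℝ) t × Ω' | b < (q.1 : ℝ) ∧ (q.1 : ℝ) ≤ s q.2} =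
        {q : Icc (0 : ℝ) t × Ω' | b < (q.1 : ℝ)} ∩
          {q : Icc (0 : ℝ) t × Ω' | (q.1 : ℝ) ≤ min t (s q.2)} := by
      ext q
      simp only [mem_ofPred_eq, mem_inter_iff, le_min_iff]
      exact ⟨fun h => ⟨h.1, q.1.2.2, h.2⟩, fun h => ⟨h.1, h.2.2⟩⟩
    rw [h3]
    exact (measurableSet_lt measurable_const h1).inter
      (measurableSet_le h1 (hs.comp measurable_snd))
  exact Measurable.ite h2 ha' measurable_const

theorem prz : S_PRZ.{u} := by
  intro Ω mΩ P _ F W hW T hT σ a hσ ha t ht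
  refine @meas_tsum_fin (Icc (0 : ℝ) t × Ω)
    ((inferInstance : MeasurableSpace (Icc (0 : ℝ) t)).prod (F t))
    (fun n q => if tt T n < (q.1 : ℝ) ∧ (q.1 : ℝ) ≤ σ n q.2 then a n q.2 else 0) ?_ ?_
  · intro n
    by_cases hn : t ≤ tt T n
    · have h1 : ∀ q : Icc (0 : ℝ) t × Ω, ¬ (tt T n < (q.1 : ℝ) ∧ (q.1 : ℝ) ≤ σ n q.2) :=
        fun q h => absurd (q.1.2.2.trans hn) (not_le.2 h.1)
      simp only [h1, if_false]
      exact measurable_const
    · rw [not_le] at hn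
      exact @termz_aux Ω (F t) t (tt T n) (a n) (σ n)
        ((ha n).mono (hW.mono _ t hn.le) le_rfl) (meas_tau hW.mono hT hσ n t)
  · intro q
    obtain ⟨N, hN⟩ := hσ.fin q.2
    refine ⟨N, fun n hn => ?_⟩
    rw [hN n hn]
    exact if_neg fun h => absurd h.2 (not_le.2 h.1)

end Pool.Agent.Q79.BZ
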