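import Pool.Agent.Q79.BZ.Bas79

set_option autoImplicit false

namespace Pool.Agent.Q79.BZ

open MeasureTheory ProbabilityTheory Set Filter
open scoped NNReal ENNReal Topology Real
open Pool.Agent.Helper807.BS (Prog IsStop ClassD tt clamp tt_zero tt_lt_succ tt_mono tt_nonneg tt_lt)
open Pool.Agent.Q295.BZ

universe u

theorem meas_sval {Ω : Type u} [mΩ : MeasurableSpace Ω] {d : ℕ} (H : List (Blk d Ω))
    (hH : ∀ b ∈ H, Measurable b.h) (i : Fin d) :
    Measurable (fun q : ℝ × Ω => sval H i q.1 q.2) := by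
  induction H with
  | nil => simp [sval]
  | cons b H ih =>
    have h : (fun q : ℝ × Ω => sval (b :: H) i q.1 q.2) =
        fun q : ℝ × Ω => (if b.j = i ∧ b.s < q.1 ∧ q.1 ≤ b.r then b.h q.2 else 0) +
          sval H i q.1 q.2 := by
      funext q
      simp [sval]
    rw [h]
    refine Measurable.add ?_ (ih fun c hc => hH c (List.mem_cons_of_mem _ hc))
    by_cases hj : b.j = i
    · simp only [hj, true_and]
      exact Measurable.ite ((measurableSet_lt measurable_const measurable_fst).inter
        (measurableSet_le measurable_fst measurable_const))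
        ((hH b List.mem_cons_self).comp measurable_snd) measurable_const
    · simp only [hj, false_and, if_false]
      exact measurable_const

theorem cont_sint {Ω : Type u} {d : ℕ} (H : List (Blk d Ω))
    (W : Fin d → ℝ → Ω → ℝ) (ω : Ω) (hW : ∀ i, Continuous fun t => W i t ω) :
    Continuous (fun t => sint W H t ω) := by
  induction H with
  | nil => simpa [sint] using (continuous_const : Continuous (fun _ : ℝ => (0 : ℝ)))
  | cons b H ih =>
    have h : (fun t => sint W (b :: H) t ω) =
        fun t => b.h ω * (W b.j (min b.r t) ω - W b.j (min b.s t) ω) + sint W H t ω := by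
      funext t
      simp [sint]
    rw [h]
    refine Continuous.add (continuous_const.mul (Continuous.sub ?_ ?_)) ih
    · exact (hW b.j).comp (by fun_prop)
    · exact (hW b.j).comp (by fun_prop)

theorem meas_sint {Ω : Type u} [mΩ : MeasurableSpace Ω] {d : ℕ} (H : List (Blk d Ω))
    (hH : ∀ b ∈ H, 0 ≤ b.s ∧ b.s ≤ b.r ∧ Measurable b.h)
    (W : Fin d → ℝ → Ω → ℝ) (hW : ∀ i t, 0 ≤ t → Measurable (W i t)) (t : ℝ) (ht : 0 ≤ t) :
    Measurable (fun ω => sint W H t ω) := by
  induction H with
  | nil => simp [sint]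
  | cons b H ih =>
    have h : (fun ω => sint W (b :: H) t ω) =
        fun ω => b.h ω * (W b.j (min b.r t) ω - W b.j (min b.s t) ω) + sint W H t ω := by
      funext t
      simp [sint]
    rw [h]
    obtain ⟨h1, h2, h3⟩ := hH b List.mem_cons_self
    refine Measurable.add (h3.mul (Measurable.sub ?_ ?_))
      (ih fun c hc => hH c (List.mem_cons_of_mem _ hc))
    · exact hW b.j _ (le_min (h1.trans h2) ht)
    · exact hW b.j _ (le_min h1 ht)

theorem pwc : S_PWC.{u} := by
  intro Ω mΩ P _ d T hT F hF W Bt Z M H hWc hWm hZ hMc hMm hH hWB h1 h2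
  have hb : ∀ n, ∀ b ∈ H n, 0 ≤ b.s ∧ b.s ≤ b.r ∧ Measurable b.h := by
    intro n b hb
    obtain ⟨h3, h4, _, h6, _⟩ := hH n b hb
    exact ⟨h3, h4, h6.mono (hF _) le_rfl⟩
  refine ⟨H, hH, ?_, ?_⟩
  · intro ε hε
    have hm : ∀ n, Measurable (fun ω => ∫⁻ s in Icc (0 : ℝ) T,
        ENNReal.ofReal (∑ i, (sval (H n) i s ω - Z i s ω) ^ 2)) := by
      intro n
      have h3 : ∀ ω, ∫⁻ s in Icc (0 : ℝ) T,
          ENNReal.ofReal (∑ i, (sval (H n) i s ω - Z i s ω) ^ 2) =
          ∫⁻ s in Icc (0 : ℝ) T,
          ENNReal.ofReal (∑ i, (sval (H n) i s ω - Z i (projIcc 0 T hT.le s) ω) ^ 2) := by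
        intro ω
        refine setLIntegral_congr_fun measurableSet_Icc ?_
        intro s hs
        simp only [projIcc_of_mem hT.le hs]
      simp_rw [h3]
      refine Measurable.lintegral_prod_left' (f := fun q : ℝ × Ω =>
        ENNReal.ofReal (∑ i, (sval (H n) i q.1 q.2 - Z i (projIcc 0 T hT.le q.1) q.2) ^ 2)) ?_
      refine Measurable.ennreal_ofReal (Finset.measurable_sum _ fun i _ => ?_)
      refine Measurable.pow_const (Measurable.sub
        (meas_sval (H n) (fun b hb' => (hb n b hb').2.2) i) ?_) 2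
      exact (hZ i).comp (((continuous_projIcc (h := hT.le)).measurable.comp measurable_fst).prodMk
        measurable_snd)
    have h4 := tendsto_measure_of_tendsto_indicator_of_isFiniteMeasure (A := (∅ : Set Ω)) atTop (μ := P)
      (As := fun n => {ω | ENNReal.ofReal ε ≤ ∫⁻ s in Icc (0 : ℝ) T,
        ENNReal.ofReal (∑ i, (sval (H n) i s ω - Z i s ω) ^ 2)})
      (fun n => measurableSet_le measurable_const (hm n)) ?_
    · rwa [measure_empty] at h4
    · intro ω
      have h5 : (0 : ℝ≥0∞) < ENNReal.ofReal ε := ENNReal.ofReal_pos.2 hε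
      filter_upwards [(h1 ω).eventually (gt_mem_nhds h5)] with n hn
      simp only [mem_empty_iff_false, iff_false, not_le]
      exact hn
  · intro ε hε
    obtain ⟨D, hDc, hDd⟩ := TopologicalSpace.exists_countable_dense (Icc (0 : ℝ) T)
    have hBm : ∀ n, MeasurableSet
        {ω | ∃ q ∈ D, ε / 2 < |sint W (H n) (q : ℝ) ω - M (q : ℝ) ω|} := by
      intro n
      have h3 : {ω | ∃ q ∈ D, ε / 2 < |sint W (H n) (q : ℝ) ω - M (q : ℝ) ω|} =
          ⋃ q ∈ D, {ω | ε / 2 < |sint W (H n) (q : ℝ) ω - M (q : ℝ) ω|} := by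
        ext ω
        simp only [mem_ofPred_eq, mem_iUnion, exists_prop]
      rw [h3]
      refine MeasurableSet.biUnion hDc fun q _ => measurableSet_lt measurable_const ?_
      exact ((meas_sint (H n) (hb n) W hWm q q.2.1).sub (hMm q q.2)).abs
    have h4 := tendsto_measure_of_tendsto_indicator_of_isFiniteMeasure (A := (∅ : Set Ω)) atTop (μ := P)
      (As := fun n => {ω | ∃ q ∈ D, ε / 2 < |sint W (H n) (q : ℝ) ω - M (q : ℝ) ω|}) hBm ?_
    · rw [measure_empty] at h4
      refine tendsto_of_tendsto_of_tendsto_of_le_of_le tendsto_const_nhds h4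
        (fun _ => zero_le) (fun n => ?_)
      refine iSup₂_le fun t ht => ?_
      refine measure_mono_ae ?_
      filter_upwards [hWB n t ht.1] with ω hω h5
      have h6 : ε ≤ |sint W (H n) t ω - M t ω| := by
        rw [← hω]
        exact h5
      have h7 : Continuous (fun q : Icc (0 : ℝ) T =>
          |sint W (H n) (q : ℝ) ω - M (q : ℝ) ω|) := by
        refine (Continuous.sub ?_ ?_).abs
        · exact (cont_sint (H n) W ω (fun i => hWc i ω)).comp continuous_subtype_val
        · exact continuousOn_iff_continuous_domRestrict.1 (hMc ω)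
      have h8 : IsOpen {q : Icc (0 : ℝ) T | ε / 2 < |sint W (H n) (q : ℝ) ω - M (q : ℝ) ω|} :=
        isOpen_lt continuous_const h7
      obtain ⟨q, hq1, hq2⟩ := hDd.exists_mem_open h8 ⟨⟨t, ht⟩, by
        simp only [mem_ofPred_eq]
        linarith⟩
      exact ⟨q, hq1, hq2⟩
    · intro ω
      filter_upwards [h2 ω (ε / 2) (by positivity)] with n hn
      simp only [mem_empty_iff_false, iff_false, not_exists, not_and, not_lt]
      intro q _
      exact hn q q.2

end Pool.Agent.Q79.BZ
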